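import Pool.Agent.H964R2.Gon.Curve

/-!
# A minimal degree map for which the curves over the general lines have smaller gonality

Over every algebraically closed field of characteristic two there are a smooth projective surface
`X` and a dominant rational map `ψ` from `X` to the projective plane of the minimal degree
`d = irr(X) = 2` such that `gon(C_L) = 1 < d` for the general line `L`.
(`X` is the surface `∑ xᵢ yᵢ² = ∑ xᵢ² yᵢ = 0` in the product of two projective planes and `ψ` is
its first projection.)
-/

namespace Pool.Agent.Results.MP_83f7cc_ag.GonalityDrops

open Pool.Agent.H964R2.Gon

universe u

/-- Over every algebraically closed field `k` of characteristic two there are a smooth projective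
surface `X`, with function field `K` and generic point `ζ`, and a dominant rational map `ψ` from
`X` to the projective plane, with coordinates `T`, which has degree `2`, which is the minimal degree
of such maps, such that for the general line `L` the closure `C_L` of the preimage of `L` under `ψ`
is an integral curve, with function field `E` and generic point `γ`, whose gonality is `1`. -/
theorem result (k : Type u) [Field k] [IsAlgClosed k] [CharP k 2] :
    ∃ (X : Set (Fin 3 × Fin 3 → k)) (K : Type u) (_ : Field K) (_ : Algebra k K)
      (ζ : Fin 3 × Fin 3 → K) (T : Fin 3 → K),
      IsNice X 2 ζ ∧ IsMinimalDegree k T 2 ∧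
      ForGeneralLine 2 fun L => ∃ (E : Type u) (_ : Field E) (_ : Algebra k E)
        (γ : Fin 3 × Fin 3 → E),
        IsGenericPoint (curve X ζ T L) γ ∧ Algebra.trdeg k E = 1 ∧ IsGonality k E 1 :=
  main k

end Pool.Agent.Results.MP_83f7cc_ag.GonalityDrops
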